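import Pool.Agent.Run7.h376.QL.Red

/-!
# Order ideals of `L_r` are homeomorphic to inner product spaces

Problem `MP_5aae23_gt`, question Q1 (is every normed space homeomorphic to an inner product space?).

Let `(S, μ)` be a measure space, `1 ≤ r < ∞`, and `X` a real normed space, complete or not, which is
isomorphic to an order ideal of `L_r(μ)`: there is a linear space `E` of measurable real functions
`f` with `∫ |f|^r < ∞` which contains with `f` each measurable `g` with `|g| ≤ |f|`, and a linear
surjection `J : E → X` with `a ‖f‖_r ≤ ‖J f‖ ≤ b ‖f‖_r`. The theorem: `X` is homeomorphic to an inner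
product space. The ideal need not be closed or dense, and may have any Borel or projective class;
examples are `L_∞(μ)` or `L_s(μ)`, `s > r`, with the norm of `L_r(μ)` for a finite measure, `ℓ_s` with the
norm of `ℓ_r` for `s < r`, and the ideals generated by arbitrary families of functions.

The homeomorphism is Mazur's map `f ↦ sgn(f) |f|^(r/2)`; the point is that it maps ideals of `L_r(μ)`
to ideals of `L_2(μ)`, in particular to linear subspaces. It is continuous in both directions because of
`|sgn(s) |s|^t - sgn(u) |u|^t| ≤ ε |s|^t + K |s - u|^t`.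
-/

set_option autoImplicit false

open MeasureTheory

namespace Pool.Agent.Results.MP_5aae23_gt.OrderIdeals

universe u v

/-- `E` is an order ideal of `L_r(μ)`, as a space of measurable functions -/
structure OrderIdeal {S : Type u} [MeasurableSpace S] (μ : Measure S) (E : Submodule ℝ (S → ℝ))
    (r : ℝ) : Prop where
  meas : ∀ f ∈ E, Measurable f
  int : ∀ f ∈ E, Integrable (fun s => |f s| ^ r) μ
  solid : ∀ f ∈ E, ∀ g : S → ℝ, Measurable g → (∀ s, |g s| ≤ |f s|) → g ∈ E

/-- **Each normed space, complete or not, which is isomorphic to an order ideal of some `L_r(μ)`,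
`1 ≤ r < ∞`, is homeomorphic to an inner product space.** -/
theorem result {S : Type u} [MeasurableSpace S] (μ : Measure S) (E : Submodule ℝ (S → ℝ)) (r : ℝ)
    (hr : 1 ≤ r) (hE : OrderIdeal μ E r) {X : Type v} [NormedAddCommGroup X] [NormedSpace ℝ X]
    (J : E →ₗ[ℝ] X) (hJ : Function.Surjective J) (a b : ℝ) (ha : 0 < a)
    (hlow : ∀ f : E, a * (∫ s, |f.1 s| ^ r ∂μ) ^ (1 / r) ≤ ‖J f‖)
    (hup : ∀ f : E, ‖J f‖ ≤ b * (∫ s, |f.1 s| ^ r ∂μ) ^ (1 / r)) :
    ∃ (Y : Type u) (_ : NormedAddCommGroup Y) (_ : InnerProductSpace ℝ Y), Nonempty (X ≃ₜ Y) :=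
  Run7.h376.QL.ideal_main2 ⟨hE.meas, hE.int, hE.solid⟩ (by linarith) J hJ a b ha hlow hup

end Pool.Agent.Results.MP_5aae23_gt.OrderIdeals
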